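import Mathlib
import Pool.Agent.H560.CL.Final

/-!
# Few cluster primes; almost every `n` has many even numbers below it which are not differences of two
primes `≤ n`

Blecksmith, Erdos and Selfridge (1999) proved that there are at most `X / (log X) ^ s` cluster primes up to
`X`, for every `s`, and Elsholtz (2003) proved that there are at most `X exp (- c (log log X) ^ 2)`, for every
`c < 1 / 8`. We prove this for every `c < κ / 2`, `κ = e ^ γ / (2 C₂)` with the twin prime constant `C₂`, so
`κ / 2 = 0.67...`, and moreover that a number `(log X) ^ θ` of exceptions is equally rare, for all integers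
`n ≤ X` in place of the primes.

Method. Let `D` be the set of the `d ≤ log X` with `n - d` prime. It misses the class of `n` modulo every
small prime. If `D` had at most `λ κ log y` elements up to `y`, a greedy choice of one class modulo each odd
prime up to about `λ log y` would cover `D`: each step removes the proportion `1 / (l - 1)` of the remaining
elements, as one class is missed, and the product of the `1 - 1 / (l - 1)` is about `1 / (κ log y)` with `log y`
replaced by its logarithm; at the end one prime serves one element. By the Chinese remainder theorem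
`y ^ (1 - λ - ε)` integers `m ≤ y` of the parity of `n` are then not of the form `d + prime`, `d ∈ D`, and all the
`n - m` are exceptions. So `D` has at least about `κ (t - θ) log log X` elements up to `(log X) ^ t`, for ALL
`θ < t ≤ 1`, and the number of the `n ≤ X` for which `n - d` is prime for all elements `d` of such a set is
bounded by Brun's sieve, uniformly in the set.
-/

set_option autoImplicit false

namespace Pool.Agent.Results.MP_4561bf_nt.FewClusterPrimes

open Finset Filter Topology Pool.Agent.H560.CL

lemma kappa_half : 3 / 5 < kappa / 2 := by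
  have h1 : twinC ≤ 2625 / 3840 := by
    have h2 := ciInf_le twinPart_bdd 7
    have h3 : twinPart 7 = 2625 / 3840 := by
      unfold twinPart
      have h4 : (Icc 3 7).filter Nat.Prime = ({3, 5, 7} : Finset ℕ) := by decide
      rw [h4, prod_insert (by decide), prod_insert (by decide), prod_singleton]
      norm_num
    rw [h3] at h2
    exact h2
  have h2 : (1.648 : ℝ) < Real.exp Real.eulerMascheroniConstant := by
    have h3 : Real.exp (1 / 2) < Real.exp Real.eulerMascheroniConstant :=
      Real.exp_lt_exp.2 Real.one_half_lt_eulerMascheroniConstant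
    have h4 : Real.exp (1 / 2) ^ 2 = Real.exp 1 := by
      rw [← Real.exp_nat_mul]; norm_num
    have h5 : (2.7182818283 : ℝ) < Real.exp 1 := Real.exp_one_gt_d9
    have h6 : (1.648 : ℝ) ^ 2 < Real.exp (1 / 2) ^ 2 := by rw [h4]; norm_num at h5 ⊢; linarith
    have h7 := lt_of_pow_lt_pow_left₀ 2 (Real.exp_pos _).le h6
    linarith
  have h3 := twinC_pos
  unfold kappa
  rw [div_div, lt_div_iff₀ (by positivity)]
  norm_num at h1 h2 ⊢
  linarith

/-- The odd prime `p` is a cluster prime: every positive even integer `h < p - 2` is a difference of two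
primes `≤ p`. -/
def IsClusterPrime (p : ℕ) : Prop :=
  p.Prime ∧ Odd p ∧ ∀ h : ℕ, Even h → 1 ≤ h → h + 2 < p →
    ∃ q q' : ℕ, q.Prime ∧ q'.Prime ∧ q ≤ p ∧ q' ≤ p ∧ q = q' + h

/-- The number of the cluster primes up to `X` is at most `X exp (- c (log log X) ^ 2)` for all large `X`, for
every `c < κ / 2`, and `κ / 2 > 3 / 5`. For `0 ≤ θ < 1` and `c < κ (1 - θ) ^ 2 / 2` at most
`X exp (- c (log log X) ^ 2)` integers `n ≤ X`, prime or not, have at most `(log X) ^ θ` even numbers `h`
between `n - log X` and `n` which are not differences of two primes `≤ n`. -/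
theorem result :
    (∀ c : ℝ, c < kappa / 2 → ∀ᶠ X : ℕ in atTop,
      (Set.ncard {p : ℕ | p ≤ X ∧ IsClusterPrime p} : ℝ)
        ≤ X * Real.exp (-(c * Real.log (Real.log X) ^ 2))) ∧
    3 / 5 < kappa / 2 ∧
    (∀ θ c : ℝ, 0 ≤ θ → θ < 1 → c < kappa * (1 - θ) ^ 2 / 2 → ∀ᶠ X : ℕ in atTop,
      (((Icc 1 X).filter (fun n => (exceptions (Real.log X) n : ℝ) ≤ Real.log X ^ θ)).card : ℝ)
        ≤ X * Real.exp (-(c * Real.log (Real.log X) ^ 2))) := by
  classical
  refine ⟨?_, kappa_half, few⟩
  intro c hc
  have hκ := kappa_pos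
  -- a small positive exponent
  obtain ⟨θ, hθ0, hθ1, hθc⟩ : ∃ θ : ℝ, 0 < θ ∧ θ < 1 ∧ c < kappa * (1 - θ) ^ 2 / 2 := by
    refine ⟨min (1 / 2) ((kappa / 2 - c) / (2 * kappa)), ?_, ?_, ?_⟩
    · apply lt_min (by norm_num)
      apply div_pos <;> linarith
    · exact (min_le_left _ _).trans_lt (by norm_num)
    · set θ := min (1 / 2) ((kappa / 2 - c) / (2 * kappa)) with hθ
      have h1 : θ ≤ (kappa / 2 - c) / (2 * kappa) := min_le_right _ _
      rw [le_div_iff₀ (by positivity)] at h1
      have h2 : (1 - θ) ^ 2 = 1 - 2 * θ + θ ^ 2 := by ring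
      have h3 : kappa * (1 - θ) ^ 2 / 2 = kappa / 2 - kappa * θ + kappa * θ ^ 2 / 2 := by rw [h2]; ring
      have h4 : 0 ≤ kappa * θ ^ 2 / 2 := by positivity
      rw [h3]
      nlinarith
  have hlog : Tendsto (fun X : ℕ => Real.log X) atTop atTop :=
    Real.tendsto_log_atTop.comp tendsto_natCast_atTop_atTop
  have h2 := ((tendsto_rpow_atTop hθ0).comp hlog).eventually (eventually_ge_atTop 3)
  filter_upwards [few θ c hθ0.le hθ1 hθc, h2] with X hX h2
  simp only [Function.comp_apply] at h2
  refine le_trans ?_ hX
  have hsub : {n : ℕ | n ≤ X ∧ IsClusterPrime n}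
      ⊆ (((Icc 1 X).filter (fun n => (exceptions (Real.log X) n : ℝ) ≤ Real.log X ^ θ) : Finset ℕ) : Set ℕ) := by
    rintro n ⟨hnX, hn0, -, hn⟩
    have hn1 : 1 ≤ n := hn0.one_lt.le
    rw [mem_coe, mem_filter, mem_Icc]
    refine ⟨⟨hn1, hnX⟩, ?_⟩
    have h3 : exceptions (Real.log X) n ≤ 3 := by
      unfold exceptions
      have h4 : (Ioc (n - 3) n).card ≤ 3 := by rw [Nat.card_Ioc]; omega
      refine le_trans (card_le_card ?_) h4
      intro h hh
      rw [mem_filter, mem_Icc] at hh
      rw [mem_Ioc]
      refine ⟨?_, hh.1.2⟩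
      by_contra hcon
      exact hh.2.2.2 (hn h hh.2.2.1 hh.1.1 (by omega))
    have h4 : (exceptions (Real.log X) n : ℝ) ≤ 3 := by exact_mod_cast h3
    linarith
  have h3 := Set.ncard_le_ncard hsub (Finset.finite_toSet _)
  rw [Set.ncard_coe_finset] at h3
  exact_mod_cast h3

end Pool.Agent.Results.MP_4561bf_nt.FewClusterPrimes
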